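import Mathlib

set_option autoImplicit false

namespace Pool.Agent.Results.MP_055c61_al.SylowNormal

open Subgroup Pointwise

universe u v

section

variable {G : Type v} [Group G] {Ω : Type u} [MulAction G Ω] {p : ℕ} [Fact p.Prime]

/-- elements supported in `U` -/
def FS (G : Type v) [Group G] [MulAction G Ω] (U : Set Ω) : Subgroup G where
  carrier := {g | ∀ y, y ∉ U → g • y = y}
  one_mem' := fun y _ => one_smul _ y
  mul_mem' := fun ha hb y hy => by rw [mul_smul, hb y hy, ha y hy]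
  inv_mem' := fun ha y hy => by rw [inv_smul_eq_iff, ha y hy]

lemma FS_mem {U : Set Ω} {g : G} (hg : g ∈ FS G U) {y : Ω} (hy : y ∈ U) : g • y ∈ U := by
  by_contra h
  have : g • y = y := MulAction.injective g (hg _ h)
  exact h (by rwa [this])

lemma FS_mono (X : Set G) {U W : Set Ω} (h : U ⊆ W) :
    closure (X ∩ FS G U) ≤ closure (X ∩ FS G W) :=
  Subgroup.closure_mono (Set.inter_subset_inter_right _ fun _ hg y hy => hg y fun h' => hy (h h'))

lemma FS_fin [FaithfulSMul G Ω] {U : Set Ω} (hU : U.Finite) : Finite (FS G U) := by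
  have : Finite U := hU
  refine Finite.of_injective (fun g : FS G U => fun y : U => (⟨g.1 • y.1, FS_mem g.2 y.2⟩ : U)) ?_
  intro a b h
  refine Subtype.ext (eq_of_smul_eq_smul (α := Ω) fun y => ?_)
  by_cases hy : y ∈ U
  · exact congrArg Subtype.val (congrFun h ⟨y, hy⟩)
  · rw [a.2 y hy, b.2 y hy]

/-- In a finite `p`-group some generator moves all points of a nontrivial orbit. -/
lemma moves (X : Set G) [Finite (closure X)] (hp : IsPGroup p (closure X)) (a b : Ω) (hab : b ≠ a)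
    (g : G) (hg : g ∈ closure X) (e : g • a = b) :
    ∃ t ∈ X, ∀ f ∈ closure X, t • f • a ≠ f • a := by
  have := hp.isNilpotent
  rcases eq_top_or_exists_le_coatom (MulAction.stabilizer (closure X) a) with h | ⟨K, hK, h⟩
  · have : (⟨g, hg⟩ : closure X) ∈ MulAction.stabilizer (closure X) a := h ▸ mem_top _
    exact absurd (e.symm.trans this) hab
  have hn := NormalizerCondition.normal_of_coatom K Group.normalizerCondition_of_isNilpotent hK
  by_contra hh
  push Not at hh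
  apply hK.1
  rw [eq_top_iff]
  rintro ⟨x, hx⟩ -
  induction hx using closure_induction with
  | mem t ht =>
    obtain ⟨f, hf, e⟩ := hh t ht
    have h1 : (⟨f, hf⟩ : closure X)⁻¹ * ⟨t, subset_closure ht⟩ * ⟨f, hf⟩ ∈ K := h (by
      change (f⁻¹ * t * f) • a = a
      rw [mul_smul, mul_smul, e, inv_smul_smul])
    have := hn.conj_mem _ h1 ⟨f, hf⟩
    rwa [← mul_assoc, ← mul_assoc, mul_inv_cancel, one_mul, mul_inv_cancel_right] at this
  | one => exact one_mem K
  | mul x y hx hy h1 h2 => exact mul_mem h1 h2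
  | inv x hx h1 => exact inv_mem h1

variable [FaithfulSMul G Ω]

lemma block (hG : ∀ g : G, {y : Ω | g • y ≠ y}.Finite) (S : Subgroup G) (hp : IsPGroup p S)
    (hS : ∀ x y : Ω, ∃ s ∈ S, s • x = y) (a : Ω) (B : Set Ω) (hB : B.Finite) :
    ∃ Γ : Set Ω, Γ.Finite ∧ a ∈ Γ ∧ B ⊆ Γ ∧
      ∀ s ∈ S, ∀ y ∈ Γ, s • y ∈ Γ → ∀ z, z ∈ Γ ↔ s • z ∈ Γ := by
  classical
  choose s hs es using hS a
  obtain ⟨n, hn⟩ := (hB.image fun b => {y : Ω | s b • y ≠ y}.ncard).bddAbove
  let X : Set G := {t | t ∈ S ∧ {y : Ω | t • y ≠ y}.ncard ≤ n}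
  have conjX : ∀ g ∈ S, ∀ t ∈ X, g * t * g⁻¹ ∈ X := fun g hg t ht => by
    refine ⟨mul_mem (mul_mem hg ht.1) (inv_mem hg), le_trans (le_of_eq ?_) ht.2⟩
    rw [← Set.ncard_image_of_injective _ (MulAction.injective g⁻¹)]
    congr 1
    ext y
    simp only [Set.mem_image, Set.mem_ofPred_eq, mul_smul]
    constructor
    · rintro ⟨z, hz, rfl⟩ h
      exact hz (by rw [h, smul_inv_smul])
    · intro h
      exact ⟨g • y, by simpa using h, by simp⟩
  have conjM : ∀ g ∈ S, ∀ m ∈ closure X, g * m * g⁻¹ ∈ closure X := fun g hg m hm => by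
    induction hm using closure_induction with
    | mem t ht => exact subset_closure (conjX g hg t ht)
    | one => simp
    | mul x y hx hy h1 h2 => simpa [mul_assoc] using mul_mem h1 h2
    | inv x hx h1 => simpa [mul_assoc] using inv_mem h1
  have loc : ∀ m ∈ closure X, ∃ U : Set Ω, U.Finite ∧ m ∈ closure (X ∩ FS G U) := fun m hm => by
    induction hm using closure_induction with
    | mem t ht => exact ⟨_, hG t, subset_closure ⟨ht, fun y hy => by simpa using hy⟩⟩
    | one => exact ⟨∅, Set.finite_empty, one_mem _⟩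
    | mul x y hx hy h1 h2 =>
      obtain ⟨U, hU, h1⟩ := h1
      obtain ⟨W, hW, h2⟩ := h2
      exact ⟨U ∪ W, hU.union hW, mul_mem (FS_mono X Set.subset_union_left h1)
        (FS_mono X Set.subset_union_right h2)⟩
    | inv x hx h1 => exact h1.imp fun U h => ⟨h.1, inv_mem h.2⟩
  refine ⟨{y | ∃ m ∈ closure X, m • a = y}, ?_, ⟨1, one_mem _, one_smul _ _⟩,
    fun b hb => ⟨s b, subset_closure ⟨hs b, hn ⟨b, hb, rfl⟩⟩, es b⟩, ?_⟩
  · by_contra hinf
    obtain ⟨C, hC, hc⟩ := Set.Infinite.exists_subset_card_eq hinf (n + 2)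
    have hC' : ∀ c ∈ C, ∃ m ∈ closure X, m • a = c := fun c hc => hC hc
    choose! m hm em using hC'
    choose! U hU hmU using loc
    let W : Set Ω := ⋃ c ∈ C, U (m c)
    have hW : W.Finite := C.finite_toSet.biUnion fun c hc => hU _ (hm c hc)
    have hF : ∀ c ∈ C, m c ∈ closure (X ∩ FS G W) := fun c hc =>
      FS_mono X (fun y h => Set.mem_biUnion (Finset.mem_coe.2 hc) h) (hmU _ (hm c hc))
    have le1 : closure (X ∩ FS G W) ≤ FS G W := (closure_le _).2 Set.inter_subset_right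
    have le2 : closure (X ∩ FS G W) ≤ S := (closure_le _).2 fun t ht => ht.1.1
    have := FS_fin (G := G) hW
    have : Finite (closure (X ∩ FS G W)) := Finite.of_injective _ (inclusion_injective le1)
    obtain ⟨b, hb, hba⟩ := Finset.exists_mem_ne (s := C) (by omega) a
    obtain ⟨t, ht, h⟩ := moves (X ∩ FS G W) (hp.to_le le2) a b hba _ (hF b hb) (em b hb)
    have : (C : Set Ω).ncard ≤ {y : Ω | t • y ≠ y}.ncard :=
      Set.ncard_le_ncard (fun c hc => by have := h _ (hF c hc); rwa [em c hc] at this) (hG t)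
    have h2 := ht.1.2
    rw [Set.ncard_coe_finset] at this
    omega
  · rintro g hg _ ⟨m, hm, rfl⟩ ⟨k, hk, e⟩ z
    constructor
    · rintro ⟨l, hl, rfl⟩
      refine ⟨(g * (l * m⁻¹) * g⁻¹) * k, mul_mem (conjM g hg _ (mul_mem hl (inv_mem hm))) hk, ?_⟩
      simp [mul_smul, e]
    · rintro ⟨l, hl, e2⟩
      refine ⟨(g⁻¹ * (l * k⁻¹) * g⁻¹⁻¹) * m,
        mul_mem (conjM _ (inv_mem hg) _ (mul_mem hl (inv_mem hk))) hm, ?_⟩
      simp [mul_smul, ← e, e2]

/-- Every element lies in a finite subgroup one of whose Sylow subgroups is contained in `S`. -/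
lemma key (hG : ∀ g : G, {y : Ω | g • y ≠ y}.Finite) (S : Sylow p G)
    (hS : ∀ x y : Ω, ∃ s ∈ S, s • x = y) (x : G) :
    ∃ H : Subgroup G, Finite H ∧ x ∈ H ∧ ∃ T : Sylow p H, ∀ t ∈ T, (t : G) ∈ S := by
  classical
  rcases isEmpty_or_nonempty Ω with h | ⟨⟨a⟩⟩
  · have h1 : ∀ g : G, g = 1 := fun g => eq_of_smul_eq_smul (α := Ω) fun y => h.elim y
    exact ⟨⊥, inferInstance, h1 x, default, fun t _ => by rw [h1 t]; exact one_mem S⟩
  obtain ⟨Γ, hΓ, ha, hx, hb⟩ := block hG S S.isPGroup' hS a _ (hG x)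
  have := FS_fin (G := G) hΓ
  let K : Subgroup G := S ⊓ MulAction.stabilizer G Γ
  have hK : K ≤ normalizer (FS G Γ) := by
    have : ∀ k ∈ K, ∀ g ∈ FS G Γ, k * g * k⁻¹ ∈ FS G Γ := fun k hk g hg y hy => by
      have : k⁻¹ • y ∉ Γ := fun h => hy (by
        have e : k • Γ = Γ := hk.2
        rw [← e]; exact Set.mem_smul_set_iff_inv_smul_mem.2 h)
      rw [mul_smul, mul_smul, hg _ this, smul_inv_smul]
    intro k hk g
    exact ⟨this k hk g, fun h => by simpa [mul_assoc] using this _ (inv_mem hk) _ h⟩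
  let act : MulAction K (Sylow p (FS G Γ)) :=
    MulAction.compHom _ ((FS G Γ).normalizerMonoidHom.comp (inclusion hK))
  obtain ⟨T, hT⟩ := (S.isPGroup'.to_le (inf_le_left : K ≤ S)).nonempty_fixed_point_of_prime_not_dvd_card
    (Sylow p (FS G Γ)) (not_dvd_card_sylow p _)
  have hT' : ∀ k ∈ K, ∀ t ∈ T, ∃ t' ∈ T, (t' : G) = k * t * k⁻¹ := fun k hk t ht => by
    have e : ((FS G Γ).normalizerMonoidHom (inclusion hK ⟨k, hk⟩)) • T = T := hT ⟨k, hk⟩
    refine ⟨((FS G Γ).normalizerMonoidHom (inclusion hK ⟨k, hk⟩)) • t, ?_, rfl⟩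
    rw [← e]
    exact Subgroup.smul_mem_pointwise_smul _ _ (T : Subgroup (FS G Γ)) ht
  let D : Subgroup G :=
    { carrier := {g | ∀ s ∈ S, ∃ t ∈ T, ∀ y ∈ Γ, g • s • y = s • (t : G) • y}
      one_mem' := fun s _ => ⟨1, one_mem T, fun y _ => by simp⟩
      mul_mem' := fun {g h} hg hh s hs => by
        obtain ⟨t, ht, e⟩ := hg s hs
        obtain ⟨r, hr, f⟩ := hh s hs
        exact ⟨t * r, mul_mem ht hr, fun y hy => by
          rw [mul_smul, f y hy, e _ (FS_mem r.2 hy), coe_mul, mul_smul]⟩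
      inv_mem' := fun {g} hg s hs => by
        obtain ⟨t, ht, e⟩ := hg s hs
        exact ⟨t⁻¹, inv_mem ht, fun y hy => by
          rw [inv_smul_eq_iff, e _ (FS_mem t⁻¹.2 hy), coe_inv, smul_inv_smul]⟩ }
  have pD : IsPGroup p D := by
    obtain ⟨k, hk⟩ := IsPGroup.iff_card.1 T.isPGroup'
    rintro ⟨g, hg⟩
    refine ⟨k, Subtype.ext (eq_of_smul_eq_smul (α := Ω) fun z => ?_)⟩
    obtain ⟨s, hs, rfl⟩ := hS a z
    obtain ⟨t, ht, e⟩ := hg s hs
    have h1 : ∀ n : ℕ, ∀ y ∈ Γ, (g ^ n) • s • y = s • ((t ^ n : FS G Γ) : G) • y := fun n => by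
      induction n with
      | zero => simp
      | succ n ih =>
        intro y hy
        rw [pow_succ', mul_smul, ih y hy, e _ (FS_mem (t ^ n).2 hy), pow_succ', coe_mul, mul_smul]
    have h2 : t ^ p ^ k = 1 := by
      have := pow_card_eq_one' (G := (T : Subgroup (FS G Γ))) (x := ⟨t, ht⟩)
      rw [hk] at this
      exact congrArg Subtype.val this
    have := h1 (p ^ k) a ha
    rw [h2] at this
    simpa using this
  have nD : (S : Subgroup G) ≤ normalizer D := by
    have : ∀ k ∈ S, ∀ g ∈ D, k * g * k⁻¹ ∈ D := fun k hk g hg s hs => by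
      obtain ⟨t, ht, e⟩ := hg (k⁻¹ * s) (mul_mem (inv_mem hk) hs)
      exact ⟨t, ht, fun y hy => by
        have := e y hy
        simp only [mul_smul] at this ⊢
        rw [this, smul_inv_smul]⟩
    intro k hk g
    exact ⟨this k hk g, fun h => by simpa [mul_assoc] using this _ (inv_mem hk) _ h⟩
  have hD : D ≤ S := by
    rw [← S.is_maximal' (S.isPGroup'.to_sup_of_normal_right' pD nD) le_sup_left]
    exact le_sup_right
  refine ⟨FS G Γ, this, fun y hy => by_contra fun h => hy (hx h), T, fun t ht => hD fun s hs => ?_⟩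
  by_cases h : ∃ y ∈ Γ, s • y ∈ Γ
  · obtain ⟨y, hy, h⟩ := h
    have hs' : s⁻¹ ∈ K := ⟨(S : Subgroup G).inv_mem hs, Set.ext fun z => by
      rw [Set.mem_smul_set_iff_inv_smul_mem, inv_inv]; exact (hb s hs y hy h z).symm⟩
    obtain ⟨r, hr, e⟩ := hT' _ hs' t ht
    exact ⟨r, hr, fun y _ => by simp [e, mul_smul]⟩
  · exact ⟨1, one_mem T, fun y hy => by simpa using t.2 _ fun h' => h ⟨y, hy, h'⟩⟩

end

lemma fin1 {H : Type v} [Group H] [Finite H] {p : ℕ} [Fact p.Prime] (T : Sylow p H)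
    (N P : Subgroup H) [N.Normal] (hP : IsPGroup p P) (h1 : P ≤ N) (h2 : (T : Subgroup H) ⊓ N ≤ P) : P ≤ T := by
  obtain ⟨Q, hQ⟩ := hP.exists_le_sylow
  obtain ⟨g, rfl⟩ := MulAction.exists_smul_eq H T Q
  have e : ((g • T : Sylow p H) : Subgroup H) ⊓ N = MulAut.conj g • ((T : Subgroup H) ⊓ N) := by
    rw [Subgroup.smul_inf, Sylow.coe_subgroup_smul, Subgroup.Normal.conj_smul_eq_self g N]
  have c : Nat.card P ≤ Nat.card ((T : Subgroup H) ⊓ N : Subgroup H) := by
    refine (card_le_of_le (le_inf hQ h1)).trans (le_of_eq ?_)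
    rw [e]
    exact Nat.card_congr (Subgroup.equivSMul _ _).symm.toEquiv
  rw [← eq_of_le_of_card_ge h2 c]
  exact inf_le_left

/-- For a transitive Sylow `p`-subgroup `S` of a group `G` of finitary permutations and a normal
subgroup `N` of `G`, `S ∩ N` is a Sylow `p`-subgroup of `N` and `SN/N` is one of `G/N`. -/
theorem result (p : ℕ) [Fact p.Prime] (Ω : Type u) (G : Subgroup (Equiv.Perm Ω))
    (hG : ∀ g ∈ G, {x | g x ≠ x}.Finite) (N : Subgroup G) [N.Normal] (S : Sylow p G)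
    (hS : ∀ x y : Ω, ∃ s ∈ S, (s : Equiv.Perm Ω) x = y) :
    (∃ P : Sylow p N, (P : Subgroup N) = (S : Subgroup G).subgroupOf N) ∧
      ∃ Q : Sylow p (G ⧸ N), (Q : Subgroup (G ⧸ N)) = (S : Subgroup G).map (QuotientGroup.mk' N) := by
  have k := key (G := G) (Ω := Ω) (fun g => hG g g.2) S hS
  refine ⟨⟨⟨_, S.isPGroup'.comap_subtype, fun {P} hP h => le_antisymm (fun x hx => ?_) h⟩, rfl⟩,
    ⟨⟨_, S.isPGroup'.map _, fun {Q} hQ h => le_antisymm (fun x hx => ?_) h⟩, rfl⟩⟩
  · obtain ⟨H, hH, hx', T, hT⟩ := k x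
    refine hT ⟨x, hx'⟩ (fin1 T (N.subgroupOf H) ((P.map N.subtype).subgroupOf H)
      (hP.map _).comap_subtype (comap_mono (map_subtype_le P)) (fun t ht => ?_) ⟨x, hx, rfl⟩)
    exact ⟨⟨t, ht.2⟩, h (hT t ht.1), rfl⟩
  · obtain ⟨x, rfl⟩ := QuotientGroup.mk'_surjective N x
    obtain ⟨H, hH, hx', T, hT⟩ := k x
    let f := ((QuotientGroup.mk' N).comp H.subtype)
    have e := (T.mapSurjective f.rangeRestrict_surjective).is_maximal'
      (Q := Q.subgroupOf f.range) hQ.comap_subtype (by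
        rintro _ ⟨t, ht, rfl⟩
        exact h ⟨t, hT t ht, rfl⟩)
    have : f.rangeRestrict ⟨x, hx'⟩ ∈ Q.subgroupOf f.range := hx
    rw [e] at this
    obtain ⟨t, ht, e2⟩ := this
    exact ⟨t, hT t ht, congrArg Subtype.val e2⟩

end Pool.Agent.Results.MP_055c61_al.SylowNormal
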